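import Pool.Agent.H89.KD.Stmts

/-!
# Project KD, module OPS: the operators exist
-/

set_option autoImplicit false

open MeasureTheory Set Filter Topology
open scoped ContDiff

namespace Pool.Agent.H89.KD

open Pool.Agent.H84 Pool.Agent.H84.Sym Pool.Agent.H84.Sym.P2x Pool.Agent.H19.KL
open Pool.Agent.H73.KG Pool.Agent.H20.KH

section ops

variable {E : Type} [NormedAddCommGroup E] [InnerProductSpace ℝ E]
    [FiniteDimensional ℝ E] [MeasurableSpace E] [BorelSpace E]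

/-- OPS -/
theorem ops_thm (hEXO : EXOStmt E) (hTSF : TSFStmt E) (hBOC : BOCStmt E) : OPSStmt E := by
  intro U t hU ι _ b
  have ht : 0 < t := by
    obtain ⟨⟨C, hC⟩, _⟩ := hU
    exact hC.pos
  obtain ⟨h1, h2, h3⟩ := hTSF U t hU ι b
  have hB := hBOC U t hU ι b
  have hn1 : ∀ (u : E → ℝ) (i : ι), 0 ≤ ∫ x, (D (b i) u x) ^ 2 ∂(mu U) := fun u i =>
    integral_nonneg fun x => sq_nonneg _
  have hn2 : ∀ (u : E → ℝ) (i j : ι), 0 ≤ ∫ x, (D (b j) (D (b i) u) x) ^ 2 ∂(mu U) := fun u i j =>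
    integral_nonneg fun x => sq_nonneg _
  have hT : ∀ i, ∃ T : Lp ℝ 2 (mu U) →L[ℝ] Lp ℝ 2 (mu U), ∀ u : E → ℝ, Tst u → ∀ c : ℝ,
      T (tL U (XU b U u c)) = tL U (D (b i) u) := by
    intro i
    refine hEXO U t hU ι b (fun u => D (b i) u) (1 / t) (by positivity) ?_ ?_ ?_ ?_
    · intro u hu
      exact ((h1 u hu).2.2.2.1 (b i)).2
    · intro u v hu hv
      exact (h2 u v hu hv).2.2 (b i)
    · intro c u hu
      exact (h3 c u hu).2.2 (b i)
    · intro u c hu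
      have h := hB u hu c
      have e1 : 0 ≤ ∑ i, ∑ j, ∫ x, (D (b j) (D (b i) u) x) ^ 2 ∂(mu U) :=
        Finset.sum_nonneg fun i _ => Finset.sum_nonneg fun j _ => hn2 u i j
      have e2 : ∫ x, (D (b i) u x) ^ 2 ∂(mu U) ≤ ∑ i, ∫ x, (D (b i) u x) ^ 2 ∂(mu U) :=
        Finset.single_le_sum (f := fun i => ∫ x, (D (b i) u x) ^ 2 ∂(mu U))
          (fun i _ => hn1 u i) (Finset.mem_univ i)
      have e3 : t * ∫ x, (D (b i) u x) ^ 2 ∂(mu U) ≤
          t * ∑ i, ∫ x, (D (b i) u x) ^ 2 ∂(mu U) := mul_le_mul_of_nonneg_left e2 ht.le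
      rw [one_div, ← div_eq_inv_mul, le_div_iff₀ ht]
      linarith
  have hS : ∀ j i, ∃ T : Lp ℝ 2 (mu U) →L[ℝ] Lp ℝ 2 (mu U), ∀ u : E → ℝ, Tst u → ∀ c : ℝ,
      T (tL U (XU b U u c)) = tL U (D (b j) (D (b i) u)) := by
    intro j i
    refine hEXO U t hU ι b (fun u => D (b j) (D (b i) u)) 1 zero_le_one ?_ ?_ ?_ ?_
    · intro u hu
      exact ((h1 _ ((h1 u hu).2.2.2.1 (b i)).1).2.2.2.1 (b j)).2
    · intro u v hu hv
      rw [(h2 u v hu hv).2.2 (b i),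
        (h2 _ _ ((h1 u hu).2.2.2.1 (b i)).1 ((h1 v hv).2.2.2.1 (b i)).1).2.2 (b j)]
    · intro c u hu
      rw [(h3 c u hu).2.2 (b i), (h3 c _ ((h1 u hu).2.2.2.1 (b i)).1).2.2 (b j)]
    · intro u c hu
      have h := hB u hu c
      have e1 : 0 ≤ t * ∑ i, ∫ x, (D (b i) u x) ^ 2 ∂(mu U) :=
        mul_nonneg ht.le (Finset.sum_nonneg fun i _ => hn1 u i)
      have e2 : ∫ x, (D (b j) (D (b i) u) x) ^ 2 ∂(mu U) ≤
          ∑ i, ∑ j, ∫ x, (D (b j) (D (b i) u) x) ^ 2 ∂(mu U) :=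
        (Finset.single_le_sum (f := fun j => ∫ x, (D (b j) (D (b i) u) x) ^ 2 ∂(mu U))
          (fun j _ => hn2 u i j) (Finset.mem_univ j)).trans
        (Finset.single_le_sum
          (f := fun i => ∑ j, ∫ x, (D (b j) (D (b i) u) x) ^ 2 ∂(mu U))
          (fun i _ => Finset.sum_nonneg fun j _ => hn2 u i j) (Finset.mem_univ i))
      rw [one_mul]
      linarith
  choose T hT' using hT
  choose S hS' using hS
  exact ⟨⟨T, fun i u hu c => hT' i u hu c⟩, ⟨S, fun j i u hu c => hS' j i u hu c⟩⟩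

end ops

end Pool.Agent.H89.KD
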